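import Mathlib
import Pool.Agent.Helper93.IV1

namespace Pool.Agent.Results.MP_f75ac6_al.MaxDisjunctive

open Pool.Agent.Helper93.IV

universe u

/-- A (possibly infinite) disjunction of identities over the countable alphabet `ℕ`: a nonempty set
of pairs of words. The identical inclusion `u ∈̂ V` is the case `{(u, v) | v ∈ V}`. -/
structure DisjId where
  /-- the pairs `(u, v)`, read as the disjunction of the equalities `u = v` -/
  pairs : Set (FreeSemigroup ℕ × FreeSemigroup ℕ)
  nonempty : pairs.Nonempty

/-- `S` satisfies `⋁ u = v`: every homomorphism `φ : X⁺ → S` has `φ u = φ v` for some pair. -/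
def Satisfies (S : Type u) [Semigroup S] (σ : DisjId) : Prop :=
  ∀ φ : FreeSemigroup ℕ →ₙ* S, ∃ p ∈ σ.pairs, φ p.1 = φ p.2

/-- The class of all (nonempty) semigroups satisfying every member of `Γ`. -/
def Models (Γ : Set DisjId) : Set Semigrp.{u} :=
  {S | Nonempty S ∧ ∀ σ ∈ Γ, Satisfies S σ}

/-- Inclusive varieties in the wide sense: classes defined by infinite disjunctions of
identities. -/
def IsInclusiveVariety (M : Set Semigrp.{u}) : Prop :=
  ∃ Γ : Set DisjId, M = Models Γ

/-- Elementary: defined by some set of finite disjunctions of identities. -/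
def IsElementary (M : Set Semigrp.{u}) : Prop :=
  ∃ Γ : Set DisjId, (∀ σ ∈ Γ, σ.pairs.Finite) ∧ M = Models Γ

/-- `M` is a maximal nonelementary inclusive variety (wide sense) of semigroups. -/
def IsMaximalNonelementary (M : Set Semigrp.{u}) : Prop :=
  IsInclusiveVariety M ∧ ¬ IsElementary M ∧
    ∀ N : Set Semigrp.{u}, IsInclusiveVariety N → M ⊂ N → IsElementary N

/-- The class of (nonempty) semigroups without a free subsemigroup of rank two. -/
def NoFree : Set Semigrp.{u} :=
  {S | Nonempty S ∧ ¬ ∃ φ : FreeSemigroup (Fin 2) →ₙ* S, Function.Injective φ}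

/-- the disjunction of all nontrivial identities -/
def weak : DisjId where
  pairs := {p | p.1 ≠ p.2}
  nonempty := ⟨(FreeSemigroup.of 0, FreeSemigroup.of 1), by
    intro h
    have := congrArg FreeSemigroup.head h
    simp at this⟩

lemma satisfies_ulift {S : Type} [Semigroup S] {σ : DisjId} :
    Satisfies (ULift.{u} S) σ ↔ Satisfies S σ := by
  constructor
  · intro h φ
    obtain ⟨v, hv, he⟩ := h ((MulEquiv.ulift (α := S)).symm.toMulHom.comp φ)
    refine ⟨v, hv, ?_⟩
    have := congrArg (MulEquiv.ulift (α := S)) he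
    simpa using! this
  · intro h φ
    obtain ⟨v, hv, he⟩ := h ((MulEquiv.ulift (α := S)).toMulHom.comp φ)
    refine ⟨v, hv, ?_⟩
    have : MulEquiv.ulift (φ v.1) = MulEquiv.ulift (φ v.2) := he
    exact (MulEquiv.ulift (α := S)).injective this

lemma satisfies_weak_iff {S : Type u} [Semigroup S] :
    Satisfies S weak ↔ ¬ ∃ φ : FreeSemigroup ℕ →ₙ* S, Function.Injective φ := by
  constructor
  · rintro h ⟨φ, hφ⟩
    obtain ⟨p, hp, he⟩ := h φ
    exact hp (hφ he)
  · intro h φ
    by_contra hcon
    push Not at hcon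
    exact h ⟨φ, fun a b hab => by
      by_contra hne
      exact hcon (a, b) hne hab⟩

/-! ### free semigroups of rank two and countable rank embed in each other -/

/-- the code word `1^n 0` -/
def code (n : ℕ) : FreeSemigroup (Fin 2) :=
  match n with
  | 0 => FreeSemigroup.of 0
  | (n + 1) => FreeSemigroup.of 1 * code n

/-- underlying list -/
def tl {α : Type*} (w : FreeSemigroup α) : List α := w.head :: w.tail

lemma tl_mul {α : Type*} (w w' : FreeSemigroup α) : tl (w * w') = tl w ++ tl w' := by
  simp [tl]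

lemma tl_injective {α : Type*} : Function.Injective (tl (α := α)) := by
  intro w w' h
  simp only [tl, List.cons.injEq] at h
  exact FreeSemigroup.ext h.1 h.2

lemma tl_code (n : ℕ) : tl (code n) = List.replicate n 1 ++ [0] := by
  induction n with
  | zero => simp [code, tl]
  | succ n ih => rw [code, tl_mul, ih, List.replicate_succ]; simp [tl]

/-- the coding homomorphism on lists -/
def codeL (l : List ℕ) : List (Fin 2) := l.flatMap (fun n => List.replicate n 1 ++ [0])

lemma code_split : ∀ (n m : ℕ) (a b : List (Fin 2)),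
    List.replicate n 1 ++ 0 :: a = List.replicate m 1 ++ 0 :: b → n = m ∧ a = b := by
  intro n
  induction n with
  | zero =>
    intro m a b h
    cases m with
    | zero => simpa using h
    | succ m =>
      rw [List.replicate_succ] at h
      simp at h
  | succ n ih =>
    intro m a b h
    cases m with
    | zero =>
      rw [List.replicate_succ] at h
      simp at h
    | succ m =>
      rw [List.replicate_succ, List.replicate_succ] at h
      simp only [List.cons_append, List.cons.injEq, true_and] at h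
      obtain ⟨h1, h2⟩ := ih m a b h
      exact ⟨by rw [h1], h2⟩

lemma codeL_injective : Function.Injective codeL := by
  intro l
  induction l with
  | nil =>
    intro l' h
    cases l' with
    | nil => rfl
    | cons m l' => simp [codeL] at h
  | cons n l ih =>
    intro l' h
    cases l' with
    | nil => simp [codeL] at h
    | cons m l' =>
      simp only [codeL, List.flatMap_cons, List.append_assoc, List.cons_append,
        List.nil_append] at h
      obtain ⟨h1, h2⟩ := code_split _ _ _ _ h
      rw [h1, ih h2]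

lemma tl_lift_code (w : FreeSemigroup ℕ) : tl (FreeSemigroup.lift code w) = codeL (tl w) := by
  induction w using FreeSemigroup.recOnMul with
  | ih1 x => rw [FreeSemigroup.lift_of, tl_code]; simp [tl, codeL]
  | ih2 x y hx hy => rw [map_mul, tl_mul, hx, hy, tl_mul, codeL, codeL, codeL, List.flatMap_append]

lemma lift_code_injective : Function.Injective (FreeSemigroup.lift code) := by
  intro a b h
  apply tl_injective
  apply codeL_injective
  rw [← tl_lift_code, ← tl_lift_code, h]

lemma tl_map {α β : Type*} (f : α → β) (w : FreeSemigroup α) :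
    tl (FreeSemigroup.map f w) = (tl w).map f := by
  induction w using FreeSemigroup.recOnMul with
  | ih1 x => simp [tl]
  | ih2 x y hx hy => rw [map_mul, tl_mul, hx, hy, tl_mul, List.map_append]

lemma map_val_injective :
    Function.Injective (FreeSemigroup.map (Fin.val : Fin 2 → ℕ)) := by
  intro a b h
  apply tl_injective
  apply (List.map_injective_iff.2 Fin.val_injective)
  rw [← tl_map, ← tl_map, h]

lemma exists_injective_iff {S : Type u} [Semigroup S] :
    (∃ φ : FreeSemigroup ℕ →ₙ* S, Function.Injective φ) ↔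
      ∃ φ : FreeSemigroup (Fin 2) →ₙ* S, Function.Injective φ := by
  constructor
  · rintro ⟨φ, hφ⟩
    exact ⟨φ.comp (FreeSemigroup.map Fin.val), hφ.comp map_val_injective⟩
  · rintro ⟨φ, hφ⟩
    exact ⟨φ.comp (FreeSemigroup.lift code), hφ.comp lift_code_injective⟩

lemma noFree_eq : NoFree.{u} = Models {weak} := by
  ext S
  constructor
  · rintro ⟨h1, h2⟩
    refine ⟨h1, ?_⟩
    intro σ hσ
    rw [Set.mem_singleton_iff] at hσ
    subst hσ
    rw [satisfies_weak_iff, exists_injective_iff]
    exact h2
  · rintro ⟨h1, h2⟩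
    refine ⟨h1, ?_⟩
    have := h2 weak rfl
    rwa [satisfies_weak_iff, exists_injective_iff] at this

/-- a class defined by trivial disjunctions is elementary -/
lemma elementary_of_trivial (Γ : Set DisjId) (h : ∀ σ ∈ Γ, ∃ p ∈ σ.pairs, p.1 = p.2) :
    IsElementary (Models.{u} Γ) := by
  refine ⟨∅, by simp, ?_⟩
  ext S
  constructor
  · rintro ⟨h1, -⟩
    exact ⟨h1, by simp⟩
  · rintro ⟨h1, -⟩
    refine ⟨h1, fun σ hσ φ => ?_⟩
    obtain ⟨p, hp, he⟩ := h σ hσ
    exact ⟨p, hp, by rw [he]⟩

lemma nontrivial_subset (Γ : Set DisjId) (σ : DisjId) (hσ : σ ∈ Γ)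
    (h : ∀ p ∈ σ.pairs, p.1 ≠ p.2) : Models.{u} Γ ⊆ NoFree := by
  rintro S ⟨h1, h2⟩
  rw [noFree_eq]
  refine ⟨h1, ?_⟩
  intro τ hτ
  rw [Set.mem_singleton_iff] at hτ
  subst hτ
  intro φ
  obtain ⟨p, hp, he⟩ := h2 σ hσ φ
  exact ⟨p, h p hp, he⟩

lemma noFree_nonelementary : ¬ IsElementary NoFree.{u} := by
  rintro ⟨Γ, hfin, hM⟩
  have htriv : ∀ σ ∈ Γ, ∃ p ∈ σ.pairs, p.1 = p.2 := by
    intro σ hσ
    obtain ⟨k, n, hinj⟩ := exists_separating (Prod.fst '' σ.pairs ∪ Prod.snd '' σ.pairs)
      (((hfin σ hσ).image _).union ((hfin σ hσ).image _))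
    have hG : Semigrp.of (ULift.{u} (Equiv.Perm (Lst k n))) ∈ NoFree.{u} := by
      refine ⟨⟨(1 : ULift.{u} (Equiv.Perm (Lst k n)))⟩, ?_⟩
      rintro ⟨φ, hφ⟩
      have hfinite : Finite (ULift.{u} (Equiv.Perm (Lst k n))) := inferInstance
      have : Finite (FreeSemigroup (Fin 2)) := Finite.of_injective φ hφ
      have : Finite ℕ := Finite.of_injective (fun n => code n) (by
        intro a b hab
        have := congrArg tl hab
        simp only [tl_code] at this
        exact (code_split a b [] [] this).1)
      exact not_finite ℕ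
    rw [hM] at hG
    have hs : Satisfies (Equiv.Perm (Lst k n)) σ := satisfies_ulift.1 (hG.2 σ hσ)
    obtain ⟨p, hp, he⟩ := hs (FreeSemigroup.lift (letterPerm k n))
    exact ⟨p, hp, hinj (Or.inl ⟨p, hp, rfl⟩) (Or.inr ⟨p, hp, rfl⟩) he⟩
  have hT : Semigrp.of (ULift.{u} (FreeSemigroup (Fin 2))) ∈ NoFree.{u} := by
    rw [hM]
    refine ⟨⟨ULift.up (code 0)⟩, ?_⟩
    intro σ hσ φ
    obtain ⟨p, hp, he⟩ := htriv σ hσ
    exact ⟨p, hp, by rw [he]⟩
  exact hT.2 ⟨(MulEquiv.ulift (α := FreeSemigroup (Fin 2))).symm.toMulHom,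
    (MulEquiv.ulift (α := FreeSemigroup (Fin 2))).symm.injective⟩

/-- The class of semigroups without free subsemigroups of rank two is the unique maximal
nonelementary inclusive variety in the wide sense. -/
theorem result : {M : Set Semigrp.{u} | IsMaximalNonelementary M} = {NoFree} := by
  ext M
  rw [Set.mem_singleton_iff]
  constructor
  · rintro ⟨⟨Γ, rfl⟩, hne, hmax⟩
    obtain ⟨σ, hσ, hnt⟩ : ∃ σ ∈ Γ, ∀ p ∈ σ.pairs, p.1 ≠ p.2 := by
      by_contra hcon
      push Not at hcon
      exact hne (elementary_of_trivial Γ hcon)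
    have hsub := nontrivial_subset.{u} Γ σ hσ hnt
    by_contra hne2
    exact noFree_nonelementary.{u}
      (hmax NoFree ⟨_, noFree_eq⟩ (hsub.ssubset_of_ne hne2))
  · rintro rfl
    refine ⟨⟨_, noFree_eq⟩, noFree_nonelementary, ?_⟩
    rintro N ⟨Γ, rfl⟩ hN
    apply elementary_of_trivial
    by_contra hcon
    push Not at hcon
    obtain ⟨σ, hσ, h⟩ := hcon
    exact hN.2 (nontrivial_subset Γ σ hσ h)

end Pool.Agent.Results.MP_f75ac6_al.MaxDisjunctive
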