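import Mathlib
import Pool.Agent.Helper93.IV1

namespace Pool.Agent.Results.MP_f75ac6_al.MaxWithZero

open Pool.Agent.Helper93.IV

universe u

/-- An identical inclusion whose left-hand side is a word `u ∈ X⁺` (`some u`) or the symbol `0`
(`none`), and whose right-hand side is a nonempty set of words, where `X = ℕ`. -/
structure ZInclusion where
  /-- the left-hand side -/
  lhs : Option (FreeSemigroup ℕ)
  /-- the set `V` of words on the right -/
  words : Set (FreeSemigroup ℕ)
  nonempty : words.Nonempty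

/-- `a` is a zero element of `S`. -/
def IsZeroElt {S : Type u} [Semigroup S] (a : S) : Prop := ∀ s : S, a * s = a ∧ s * a = a

/-- `S` satisfies `u ∈̂ V` (resp. `0 ∈̂ V`): for every homomorphism `φ : X⁺ → S` there is `v ∈ V`
with `φ u = φ v` (resp. with `φ v` a zero of `S`). -/
def Satisfies (S : Type u) [Semigroup S] (σ : ZInclusion) : Prop :=
  ∀ φ : FreeSemigroup ℕ →ₙ* S, ∃ v ∈ σ.words,
    (∀ w, σ.lhs = some w → φ w = φ v) ∧ (σ.lhs = none → IsZeroElt (φ v))

/-- The class of all (nonempty) semigroups satisfying every member of `Γ`. -/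
def Models (Γ : Set ZInclusion) : Set Semigrp.{u} :=
  {S | Nonempty S ∧ ∀ σ ∈ Γ, Satisfies S σ}

/-- Classes defined by sets of such inclusions. -/
def IsInclusiveVariety (M : Set Semigrp.{u}) : Prop :=
  ∃ Γ : Set ZInclusion, M = Models Γ

/-- Elementary: defined by some set of inclusions with finite right-hand sides. -/
def IsElementary (M : Set Semigrp.{u}) : Prop :=
  ∃ Γ : Set ZInclusion, (∀ σ ∈ Γ, σ.words.Finite) ∧ M = Models Γ

/-- `M` is a maximal nonelementary class of this kind. -/
def IsMaximalNonelementary (M : Set Semigrp.{u}) : Prop :=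
  IsInclusiveVariety M ∧ ¬ IsElementary M ∧
    ∀ N : Set Semigrp.{u}, IsInclusiveVariety N → M ⊂ N → IsElementary N

/-- The class of nilsemigroups: there is a zero and every element has a power `s^(k+1)` equal to
the zero. -/
def Nil : Set Semigrp.{u} :=
  {S | ∃ z : S, IsZeroElt z ∧ ∀ s : S, ∃ k : ℕ, (fun x => s * x)^[k] s = z}

/-- the inclusion `zu ∈̂ X⁺ ∖ {zu}` -/
def weak (w : FreeSemigroup ℕ) : ZInclusion where
  lhs := some (FreeSemigroup.of 0 * w)
  words := {FreeSemigroup.of 0 * w}ᶜ
  nonempty := ⟨w, by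
    intro h
    have := congrArg FreeSemigroup.length (Set.mem_singleton_iff.1 h)
    rw [FreeSemigroup.length_mul, FreeSemigroup.length_of] at this
    omega⟩

/-- the inclusion `0 ∈̂ {x, x², x³, …}` -/
def nilIncl : ZInclusion where
  lhs := none
  words := Set.range (rep (FreeSemigroup.of 0))
  nonempty := Set.range_nonempty _

lemma isZeroElt_unique {S : Type u} [Semigroup S] {a b : S} (ha : IsZeroElt a)
    (hb : IsZeroElt b) : a = b := by
  rw [← (ha b).1, (hb a).2]

lemma satisfies_ulift {S : Type} [Semigroup S] {σ : ZInclusion} :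
    Satisfies (ULift.{u} S) σ ↔ Satisfies S σ := by
  have hz : ∀ a : ULift.{u} S, IsZeroElt a ↔ IsZeroElt a.down := by
    intro a
    constructor
    · intro h s
      exact ⟨congrArg ULift.down (h ⟨s⟩).1, congrArg ULift.down (h ⟨s⟩).2⟩
    · intro h s
      exact ⟨ULift.down_injective (h s.down).1, ULift.down_injective (h s.down).2⟩
  constructor
  · intro h φ
    obtain ⟨v, hv, he, he'⟩ := h ((MulEquiv.ulift (α := S)).symm.toMulHom.comp φ)
    refine ⟨v, hv, fun w hw => ?_, fun hw => ?_⟩
    · have := congrArg (MulEquiv.ulift (α := S)) (he w hw)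
      simpa using! this
    · exact (hz _).1 (he' hw)
  · intro h φ
    obtain ⟨v, hv, he, he'⟩ := h ((MulEquiv.ulift (α := S)).toMulHom.comp φ)
    refine ⟨v, hv, fun w hw => ?_, fun hw => ?_⟩
    · have : MulEquiv.ulift (φ w) = MulEquiv.ulift (φ v) := he w hw
      exact (MulEquiv.ulift (α := S)).injective this
    · exact (hz _).2 (he' hw)

/-- finite groups satisfy every inclusion `weak w`. -/
lemma group_satisfies_weak (G : Type) [Group G] [Finite G] (w : FreeSemigroup ℕ) :
    Satisfies G (weak w) := by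
  intro φ
  refine ⟨rep (FreeSemigroup.of 0) (Nat.card G) * w, ?_, ?_, ?_⟩
  · intro h
    have := congrArg FreeSemigroup.length (Set.mem_singleton_iff.1 h)
    rw [FreeSemigroup.length_mul, FreeSemigroup.length_mul, rep_length,
      FreeSemigroup.length_of] at this
    have h2 : 0 < Nat.card G := Nat.card_pos
    omega
  · intro w' hw'
    have : w' = FreeSemigroup.of 0 * w := by
      have := hw'; simp only [weak, Option.some.injEq] at this; exact this.symm
    rw [this, map_mul, map_mul, rep_map, pow_succ, pow_card_eq_one', one_mul]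
  · intro h; simp [weak] at h

/-- the nilpotent semigroups satisfy `weak w` if `n ≤ |w|`. -/
lemma nil_satisfies_weak (n : ℕ) (w : FreeSemigroup ℕ) (h : n ≤ w.length) :
    Satisfies (nilCon n).Quotient (weak w) := by
  intro φ
  refine ⟨(FreeSemigroup.of 0 * w) * (FreeSemigroup.of 0 * w), ?_, ?_, ?_⟩
  · intro h
    have := congrArg FreeSemigroup.length (Set.mem_singleton_iff.1 h)
    rw [FreeSemigroup.length_mul, FreeSemigroup.length_mul, FreeSemigroup.length_of] at this
    omega
  · intro w' hw'
    have : w' = FreeSemigroup.of 0 * w := by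
      have := hw'; simp only [weak, Option.some.injEq] at this; exact this.symm
    rw [this]
    apply nil_image_eq
    · rw [FreeSemigroup.length_mul, FreeSemigroup.length_of]; omega
    · rw [FreeSemigroup.length_mul, FreeSemigroup.length_mul, FreeSemigroup.length_of]; omega
  · intro h; simp [weak] at h

/-- ... and do not satisfy nontrivial inclusions with a left hand side of length at most `n`. -/
lemma nil_not_satisfies (n : ℕ) (σ : ZInclusion) (w : FreeSemigroup ℕ) (hw : σ.lhs = some w)
    (h : w.length ≤ n) (h2 : w ∉ σ.words) : ¬ Satisfies (nilCon n).Quotient σ := by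
  intro hs
  obtain ⟨v, hv, he, -⟩ := hs
    ⟨fun w => (w : (nilCon n).Quotient), fun _ _ => rfl⟩
  have he' : ((w : (nilCon n).Quotient) = (v : (nilCon n).Quotient)) := he w hw
  rw [nilCon_iff] at he'
  rcases he' with he' | he'
  · rw [he'] at h2; exact h2 hv
  · omega

lemma quotient_mem_nil (n : ℕ) : Semigrp.of (ULift.{u} (nilCon n).Quotient) ∈ Nil.{u} := by
  obtain ⟨w, hw⟩ : ∃ w : FreeSemigroup ℕ, n < w.length := by
    refine ⟨rep (FreeSemigroup.of 0) n, ?_⟩
    rw [rep_length, FreeSemigroup.length_of]; omega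
  refine ⟨ULift.up (w : (nilCon n).Quotient), ?_, ?_⟩
  · rintro ⟨s⟩
    obtain ⟨y, hy⟩ := Quotient.exists_rep s
    have hy' : (y : (nilCon n).Quotient) = s := hy
    rw [← hy']
    constructor
    · apply ULift.down_injective
      show ((w * y : FreeSemigroup ℕ) : (nilCon n).Quotient) = (w : (nilCon n).Quotient)
      rw [nilCon_iff, FreeSemigroup.length_mul]
      right; omega
    · apply ULift.down_injective
      show ((y * w : FreeSemigroup ℕ) : (nilCon n).Quotient) = (w : (nilCon n).Quotient)
      rw [nilCon_iff, FreeSemigroup.length_mul]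
      right; omega
  · rintro ⟨s⟩
    obtain ⟨y, hy⟩ := Quotient.exists_rep s
    have hy' : (y : (nilCon n).Quotient) = s := hy
    refine ⟨n, ?_⟩
    have key : ∀ k : ℕ, (fun x : ULift.{u} (nilCon n).Quotient => (ULift.up s) * x)^[k] (ULift.up s)
        = ULift.up ((rep y k : FreeSemigroup ℕ) : (nilCon n).Quotient) := by
      intro k
      induction k with
      | zero => rw [← hy']; rfl
      | succ k ih =>
        rw [Function.iterate_succ_apply', ih, ← hy']
        rfl
    refine (key n).trans ?_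
    apply ULift.down_injective
    show ((rep y n : FreeSemigroup ℕ) : (nilCon n).Quotient) = (w : (nilCon n).Quotient)
    rw [nilCon_iff]
    right
    refine ⟨?_, hw⟩
    rw [rep_length]
    have := one_le_length y
    nlinarith

lemma rep_map' {S : Type u} [Semigroup S] (φ : FreeSemigroup ℕ →ₙ* S) (z : FreeSemigroup ℕ)
    (k : ℕ) : φ (rep z k) = (fun x => φ z * x)^[k] (φ z) := by
  induction k with
  | zero => rfl
  | succ k ih => rw [rep, map_mul, ih, Function.iterate_succ_apply']

lemma nil_eq : Nil.{u} = Models {nilIncl} := by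
  ext S
  constructor
  · rintro ⟨z, hz, h⟩
    refine ⟨⟨z⟩, ?_⟩
    intro σ hσ
    rw [Set.mem_singleton_iff] at hσ
    subst hσ
    intro φ
    obtain ⟨k, hk⟩ := h (φ (FreeSemigroup.of 0))
    refine ⟨rep (FreeSemigroup.of 0) k, ⟨k, rfl⟩, ?_, fun _ => ?_⟩
    · intro w hw; simp [nilIncl] at hw
    · rw [rep_map', hk]; exact hz
  · rintro ⟨⟨s0⟩, h⟩
    have h1 : ∀ s : S, ∃ k : ℕ, IsZeroElt ((fun x => s * x)^[k] s) := by
      intro s
      obtain ⟨v, ⟨k, rfl⟩, -, hk⟩ := h nilIncl rfl (FreeSemigroup.lift (fun _ => s))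
      refine ⟨k, ?_⟩
      have := hk rfl
      rwa [rep_map', FreeSemigroup.lift_of] at this
    obtain ⟨k0, hk0⟩ := h1 s0
    exact ⟨_, hk0, fun s => by
      obtain ⟨k, hk⟩ := h1 s
      exact ⟨k, isZeroElt_unique hk hk0⟩⟩

/-- any class satisfying an inclusion `0 ∈̂ V` consists of nilsemigroups -/
lemma subset_nil (Γ : Set ZInclusion) (σ : ZInclusion) (hσ : σ ∈ Γ) (h0 : σ.lhs = none) :
    Models.{u} Γ ⊆ Nil := by
  rintro S ⟨h1, h2⟩
  rw [nil_eq]
  refine ⟨h1, ?_⟩
  intro τ hτ
  rw [Set.mem_singleton_iff] at hτ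
  subst hτ
  intro φ
  obtain ⟨v, -, -, he⟩ := h2 σ hσ (FreeSemigroup.lift (fun _ => φ (FreeSemigroup.of 0)))
  have key : ∀ v : FreeSemigroup ℕ, FreeSemigroup.lift (fun _ => φ (FreeSemigroup.of 0)) v =
      φ (rep (FreeSemigroup.of 0) (v.length - 1)) := by
    intro v
    induction v using FreeSemigroup.recOnMul with
    | ih1 x => rw [FreeSemigroup.lift_of]; rfl
    | ih2 x y hx hy =>
      rw [map_mul, hy, FreeSemigroup.lift_of, FreeSemigroup.length_mul, FreeSemigroup.length_of,
        ← map_mul]
      congr 1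
      have := one_le_length y
      obtain ⟨m, hm⟩ : ∃ m, y.length = m + 1 := ⟨y.length - 1, by omega⟩
      rw [hm, show 1 + (m + 1) - 1 = m + 1 by omega, show m + 1 - 1 = m by omega, rep]
  refine ⟨rep (FreeSemigroup.of 0) (v.length - 1), ⟨_, rfl⟩, ?_, fun _ => ?_⟩
  · intro w hw; simp [nilIncl] at hw
  · rw [← key]; exact he h0

lemma elementary_of_trivial (Γ : Set ZInclusion) (h : ∀ σ ∈ Γ, ∃ w ∈ σ.words, σ.lhs = some w) :
    IsElementary (Models.{u} Γ) := by
  refine ⟨∅, by simp, ?_⟩
  ext S
  constructor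
  · rintro ⟨h1, -⟩
    exact ⟨h1, by simp⟩
  · rintro ⟨h1, -⟩
    refine ⟨h1, fun σ hσ φ => ?_⟩
    obtain ⟨w, hw, he⟩ := h σ hσ
    refine ⟨w, hw, fun w' hw' => ?_, fun hw' => ?_⟩
    · rw [he, Option.some.injEq] at hw'
      rw [hw']
    · rw [he] at hw'; simp at hw'

lemma weak_nonelementary (w : FreeSemigroup ℕ) :
    ¬ IsElementary (Models.{u} {weak w}) := by
  rintro ⟨Γ, hfin, hM⟩
  have hmem : ∀ (k n : ℕ),
      Semigrp.of (ULift.{u} (Equiv.Perm (Lst k n))) ∈ Models.{u} {weak w} := by
    intro k n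
    refine ⟨⟨(1 : ULift.{u} (Equiv.Perm (Lst k n)))⟩, ?_⟩
    intro τ hτ
    rw [Set.mem_singleton_iff] at hτ
    subst hτ
    exact satisfies_ulift.2 (group_satisfies_weak _ w)
  have htriv : ∀ σ ∈ Γ, ∃ w ∈ σ.words, σ.lhs = some w := by
    intro σ hσ
    rcases hl : σ.lhs with _ | w'
    · exfalso
      have hG := hmem 2 2
      rw [hM] at hG
      have hnil := subset_nil.{u} Γ σ hσ hl hG
      obtain ⟨z, hz, -⟩ := hnil
      have h1 : ∀ g : ULift.{u} (Equiv.Perm (Lst 2 2)), g = 1 := by
        intro g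
        have := (hz g).1
        exact mul_left_cancel (a := z) (by rw [this, mul_one])
      have h2 := h1 (ULift.up (letterPerm 2 2 0))
      have h3 : letterPerm 2 2 0 = 1 := congrArg ULift.down h2
      have h4 := perm_apply 2 2 (FreeSemigroup.of 0) ⟨[], by simp⟩ (by simp [toL]) (by simp)
      rw [FreeSemigroup.lift_of, h3] at h4
      simp [toL] at h4
    · obtain ⟨k, n, hinj⟩ := exists_separating (insert w' σ.words) ((hfin σ hσ).insert _)
      have hG := hmem k n
      rw [hM] at hG
      have hs : Satisfies (Equiv.Perm (Lst k n)) σ := satisfies_ulift.1 (hG.2 σ hσ)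
      obtain ⟨v, hv, he, -⟩ := hs (FreeSemigroup.lift (letterPerm k n))
      have := hinj (Set.mem_insert _ _) (Set.mem_insert_of_mem _ hv) (he w' hl)
      exact ⟨w', by rw [this]; exact hv, rfl⟩
  have hT : Semigrp.of (ULift.{u} (nilCon (w.length + 1)).Quotient) ∈ Models.{u} Γ := by
    refine ⟨⟨ULift.up ((w : (nilCon (w.length + 1)).Quotient))⟩, ?_⟩
    intro σ hσ φ
    obtain ⟨w', hw', he⟩ := htriv σ hσ
    refine ⟨w', hw', fun w2 hw2 => ?_, fun hw2 => ?_⟩
    · rw [he, Option.some.injEq] at hw2
      rw [hw2]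
    · rw [he] at hw2; simp at hw2
  rw [← hM] at hT
  have hs : Satisfies (nilCon (w.length + 1)).Quotient (weak w) :=
    satisfies_ulift.1 (hT.2 _ (Set.mem_singleton _))
  refine nil_not_satisfies _ (weak w) _ rfl ?_ ?_ hs
  · rw [FreeSemigroup.length_mul, FreeSemigroup.length_of]; omega
  · intro h
    exact h rfl

/-- the nilsemigroups are not elementary -/
lemma nil_nonelementary : ¬ IsElementary Nil.{u} := by
  rintro ⟨Γ, hfin, hM⟩
  have hlen : ∀ σ ∈ Γ, σ.lhs ≠ none := by
    intro σ hσ h0
    obtain ⟨n, hn⟩ := ((hfin σ hσ).image FreeSemigroup.length).bddAbove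
    have hT := quotient_mem_nil.{u} (n + 1)
    rw [hM] at hT
    have hs : Satisfies (nilCon (n + 1)).Quotient σ := satisfies_ulift.1 (hT.2 σ hσ)
    obtain ⟨v, hv, -, he⟩ := hs ⟨fun w => (w : (nilCon (n+1)).Quotient), fun _ _ => rfl⟩
    have h1 := (he h0 ((FreeSemigroup.of 0 : FreeSemigroup ℕ) : (nilCon (n+1)).Quotient)).1
    have h2 : (((v * FreeSemigroup.of 0 : FreeSemigroup ℕ)) : (nilCon (n+1)).Quotient) =
      (v : (nilCon (n+1)).Quotient) := h1
    rw [nilCon_iff] at h2
    have h3 : v.length ≤ n := hn ⟨v, hv, rfl⟩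
    rcases h2 with h2 | h2
    · have := congrArg FreeSemigroup.length h2
      rw [FreeSemigroup.length_mul, FreeSemigroup.length_of] at this
      omega
    · omega
  have htriv : ∀ σ ∈ Γ, ∃ w ∈ σ.words, σ.lhs = some w := by
    intro σ hσ
    rcases hl : σ.lhs with _ | w
    · exact absurd hl (hlen σ hσ)
    · by_contra hcon
      have hw : w ∉ σ.words := fun h => hcon ⟨w, h, rfl⟩
      have hT := quotient_mem_nil.{u} w.length
      rw [hM] at hT
      exact nil_not_satisfies _ σ w hl le_rfl hw (satisfies_ulift.1 (hT.2 σ hσ))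
  have hG : Semigrp.of (ULift.{u} (FreeSemigroup ℕ)) ∈ Nil.{u} := by
    rw [hM]
    refine ⟨⟨ULift.up (FreeSemigroup.of 0)⟩, ?_⟩
    intro σ hσ φ
    obtain ⟨w', hw', he⟩ := htriv σ hσ
    refine ⟨w', hw', fun w2 hw2 => ?_, fun hw2 => ?_⟩
    · rw [he, Option.some.injEq] at hw2
      rw [hw2]
    · rw [he] at hw2; simp at hw2
  obtain ⟨z, hz, -⟩ := hG
  have h1 := congrArg ULift.down (hz (ULift.up (FreeSemigroup.of 0))).1
  have h2 : (ULift.down z) * FreeSemigroup.of 0 = ULift.down z := h1
  have := congrArg FreeSemigroup.length h2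
  rw [FreeSemigroup.length_mul, FreeSemigroup.length_of] at this
  omega

/-- If `0 ∈̂ V` is also allowed as an identical inclusion, the class of nilsemigroups is the unique
maximal nonelementary inclusive variety. -/
theorem result : {M : Set Semigrp.{u} | IsMaximalNonelementary M} = {Nil} := by
  ext M
  rw [Set.mem_singleton_iff]
  constructor
  · rintro ⟨⟨Γ, rfl⟩, hne, hmax⟩
    -- case distinction: is there a nontrivial inclusion with a word on the left?
    by_cases hcase : ∃ σ ∈ Γ, ∃ w, σ.lhs = some w ∧ w ∉ σ.words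
    · exfalso
      obtain ⟨σ, hσ, w, hl, hnt⟩ := hcase
      refine weak_nonelementary w (hmax (Models {weak w}) ⟨_, rfl⟩ ?_)
      rw [Set.ssubset_iff_exists]
      constructor
      · rintro S ⟨h1, h2⟩
        refine ⟨h1, ?_⟩
        intro τ hτ
        rw [Set.mem_singleton_iff] at hτ
        subst hτ
        intro φ
        obtain ⟨v, hv, he, -⟩ := h2 σ hσ φ
        refine ⟨FreeSemigroup.of 0 * v, ?_, ?_, ?_⟩
        · intro h
          have h3 : FreeSemigroup.of 0 * v = FreeSemigroup.of 0 * w := h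
          have h4 : v = w := by
            have h5 := congrArg FreeSemigroup.tail h3
            simp only [FreeSemigroup.tail_mul, FreeSemigroup.of_tail, List.nil_append,
              List.cons.injEq] at h5
            exact FreeSemigroup.ext h5.1 h5.2
          rw [h4] at hv
          exact hnt hv
        · intro w' hw'
          have : w' = FreeSemigroup.of 0 * w := by
            have := hw'; simp only [weak, Option.some.injEq] at this; exact this.symm
          rw [this, map_mul, map_mul, he w hl]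
        · intro h; simp [weak] at h
      · refine ⟨Semigrp.of (ULift.{u} (nilCon w.length).Quotient), ⟨⟨ULift.up
          ((w : (nilCon w.length).Quotient))⟩, ?_⟩, ?_⟩
        · intro τ hτ
          rw [Set.mem_singleton_iff] at hτ
          subst hτ
          exact satisfies_ulift.2 (nil_satisfies_weak _ _ le_rfl)
        · intro h
          exact nil_not_satisfies _ σ w hl le_rfl hnt (satisfies_ulift.1 (h.2 σ hσ))
    · have h0 : ∃ σ ∈ Γ, σ.lhs = none := by
        by_contra hcon
        apply hne
        apply elementary_of_trivial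
        intro σ hσ
        rcases hl : σ.lhs with _ | w
        · exact absurd ⟨σ, hσ, hl⟩ hcon
        · refine ⟨w, ?_, rfl⟩
          by_contra hw
          exact hcase ⟨σ, hσ, w, hl, hw⟩
      obtain ⟨σ, hσ, hl⟩ := h0
      have hsub := subset_nil.{u} Γ σ hσ hl
      by_contra hne2
      exact nil_nonelementary.{u} (hmax Nil ⟨_, nil_eq⟩ (hsub.ssubset_of_ne hne2))
  · rintro rfl
    refine ⟨⟨_, nil_eq⟩, nil_nonelementary, ?_⟩
    rintro N ⟨Γ, rfl⟩ hN
    apply elementary_of_trivial
    intro σ hσ
    rcases hl : σ.lhs with _ | w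
    · exact absurd (subset_nil Γ σ hσ hl) hN.2
    · refine ⟨w, ?_, rfl⟩
      by_contra hw
      have hT := hN.1 (quotient_mem_nil.{u} w.length)
      exact nil_not_satisfies _ σ w hl le_rfl hw (satisfies_ulift.1 (hT.2 σ hσ))

end Pool.Agent.Results.MP_f75ac6_al.MaxWithZero
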