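import Mathlib
import Pool.Agent.MNV.Defs
import Pool.Agent.MNV.Classify
import Pool.Agent.MNV.Monster
import Pool.Agent.MNV.Simple
import Pool.Agent.MNV.Lit
import Pool.Agent.MNV.LitRest
import Pool.Agent.MNV.Zer

/-!
# The minimal nonelementary inclusive varieties of semigroups
-/

set_option autoImplicit false

namespace Pool.Agent.Results.MP_f75ac6_al.MinimalNonelementary

open Pool.Agent.MNV

universe u

/-- `M` is one of the seven kinds: finite null semigroups, finite left zero semigroups, finite
right zero semigroups, finite chains, finite flat semilattices, cyclic `p`-groups, finite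
elementary abelian `p`-groups. -/
def Listed (M : Set Semigrp.{u}) : Prop :=
  M = FinNull ∨ M = FinLeft ∨ M = FinRight ∨ M = FinChain ∨ M = FinFlat ∨
    (∃ p : ℕ, p.Prime ∧ M = CycP p) ∨ (∃ p : ℕ, p.Prime ∧ M = ElemP p)

/-- every finitely generated subsemigroup is finite -/
def LocallyFin (S : Type u) [Semigroup S] : Prop :=
  ∀ s : Set S, s.Finite → (Subsemigroup.closure s : Set S).Finite

/-- a finitely generated group which is locally finite as a semigroup is finite -/
theorem fg_finite {G : Type*} [Group G] (hfg : Group.FG G)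
    (h : ∀ s : Set G, s.Finite → (Subsemigroup.closure s : Set G).Finite) : Finite G := by
  obtain ⟨t, ht, htf⟩ := (Group.fg_iff.1 hfg)
  have h1 := h (t ∪ t⁻¹) (htf.union htf.inv)
  have h2 : ∀ x ∈ Submonoid.closure (t ∪ t⁻¹), x ∈ insert (1 : G)
      (Subsemigroup.closure (t ∪ t⁻¹) : Set G) := by
    intro x hx
    induction hx using Submonoid.closure_induction with
    | mem x hx => exact Or.inr (Subsemigroup.subset_closure hx)
    | one => exact Or.inl rfl
    | mul x y _ _ hx hy =>
      rcases hx with rfl | hx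
      · rw [one_mul]; exact hy
      · rcases hy with rfl | hy
        · rw [mul_one]; exact Or.inr hx
        · exact Or.inr (Subsemigroup.mul_mem _ hx hy)
  have h3 : (Set.univ : Set G) ⊆ insert (1 : G) (Subsemigroup.closure (t ∪ t⁻¹) : Set G) := by
    intro x _
    apply h2
    rw [← Subgroup.closure_toSubmonoid, ht]
    trivial
  exact Set.finite_univ_iff.1 ((h1.insert 1).subset h3)

theorem listed_finite {M : Set Semigrp.{u}} (h : Listed M) : ∀ S ∈ M, Finite S := by
  intro S hS
  rcases h with h | h | h | h | h | ⟨p, hp, h⟩ | ⟨p, hp, h⟩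
  · rw [h] at hS; exact hS.2.1
  · rw [h] at hS; exact hS.2.1
  · rw [h] at hS; exact hS.2.1
  · rw [h] at hS; exact hS.2.1
  · rw [h] at hS; exact hS.2.1
  · rw [h] at hS
    obtain ⟨n, ⟨f⟩⟩ := hS
    have : NeZero (p ^ n) := ⟨pow_ne_zero n hp.ne_zero⟩
    exact Finite.of_equiv _ f.symm.toEquiv
  · rw [h] at hS
    obtain ⟨n, ⟨f⟩⟩ := hS
    have : NeZero p := ⟨hp.ne_zero⟩
    exact Finite.of_equiv _ f.symm.toEquiv

theorem listed_minimal {M : Set Semigrp.{u}} (h : Listed M) : IsMinimalNonelementary M := by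
  rcases h with h | h | h | h | h | ⟨p, hp, h⟩ | ⟨p, hp, h⟩
  · rw [h]; exact finNull_minimal
  · rw [h]; exact finLeft_minimal
  · rw [h]; exact finRight_minimal
  · rw [h]; exact finChain_minimal
  · rw [h]; exact finFlat_minimal
  · rw [h]; exact cycP_minimal hp
  · rw [h]; exact elemP_minimal hp

theorem listed_large {M : Set Semigrp.{u}} (h : Listed M) :
    ∀ n : ℕ, ∃ S ∈ M, Finite S ∧ n ≤ Nat.card S := by
  intro n
  by_contra hcon
  push Not at hcon
  have h1 := listed_minimal h
  refine h1.2.1 (elementary_of_bounded h1.1 n fun S hS => ?_)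
  have h2 := listed_finite h S hS
  exact ⟨h2, (hcon S hS h2).le⟩

/-- the description of the other minimal nonelementary inclusive varieties -/
theorem rest {M : Set Semigrp.{u}} (hM : IsMinimalNonelementary M) (h : ¬ Listed M) :
    ∃ b : ℕ, (∀ S ∈ M, Finite S → Nat.card S ≤ b) ∧
      ∃ (G : Type u) (_ : Group G), Infinite G ∧ Group.FG G ∧ IsSimpleGroup G ∧
        Semigrp.of G ∈ M := by
  obtain ⟨⟨b, hb⟩, G, hG, hGi, hfg, hGM⟩ :
      (∃ b : ℕ, ∀ S ∈ M, Finite S → Nat.card S ≤ b) ∧
        ∃ (G : Type u) (_ : Group G), Infinite G ∧ Group.FG G ∧ Semigrp.of G ∈ M := by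
    rcases classification hM with h1 | h1 | h1 | h1 | h1 | h1 | h1 | h1
    · exact absurd (Or.inl h1) h
    · exact absurd (Or.inr (Or.inl h1)) h
    · exact absurd (Or.inr (Or.inr (Or.inl h1))) h
    · exact absurd (Or.inr (Or.inr (Or.inr (Or.inl h1)))) h
    · exact absurd (Or.inr (Or.inr (Or.inr (Or.inr (Or.inl h1))))) h
    · exact absurd (Or.inr (Or.inr (Or.inr (Or.inr (Or.inr (Or.inl h1)))))) h
    · exact absurd (Or.inr (Or.inr (Or.inr (Or.inr (Or.inr (Or.inr h1)))))) h
    · exact h1
  refine ⟨b, hb, ?_⟩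
  have hq : ∀ (H : Subgroup G) (N : Subgroup H) (_ : N.Normal), Semigrp.of (H ⧸ N) ∈ M := by
    intro H N _
    refine mem_of_divides hM.1 hGM ⟨(1 : H ⧸ N)⟩ ?_
    exact ⟨H.toSubsemigroup, (QuotientGroup.mk' N).toMulHom, QuotientGroup.mk'_surjective N⟩
  obtain ⟨H, N, hN, hHfg, hinf, hsim⟩ := exists_simple G hfg b (by
    intro N hN h0
    have h1 : Semigrp.of (G ⧸ N) ∈ M := by
      refine mem_of_divides hM.1 hGM ⟨(1 : G ⧸ N)⟩ ?_
      refine ⟨⊤, ((QuotientGroup.mk' N).comp (⊤ : Subgroup G).subtype).toMulHom, ?_⟩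
      intro x
      obtain ⟨g, rfl⟩ := QuotientGroup.mk'_surjective N x
      exact ⟨⟨g, trivial⟩, rfl⟩
    have h2 : Finite (G ⧸ N) := Nat.finite_of_card_ne_zero h0
    exact hb _ h1 h2)
  refine ⟨H ⧸ N, inferInstance, hinf, ?_, hsim, hq H N hN⟩
  exact Group.fg_of_surjective (QuotientGroup.mk'_surjective N)

/-- **The minimal nonelementary inclusive varieties of semigroups** (inclusive varieties in the wide
sense: classes of semigroups defined by possibly infinite disjunctions of identities).
1. Those which contain arbitrarily large finite semigroups are exactly the seven kinds of `Listed`.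
2. Those whose members are all locally finite are exactly the seven kinds of `Listed`.
3. Each of the others has finite members of bounded order only, and contains an infinite finitely
  generated simple group `G` (the finite sections of `G`, being in `M`, have bounded order).
4. Such groups do occur: if `T` is an infinite simple group all of whose proper subgroups have at
  most `b` elements (a Tarski monster), then the class of all homomorphic images of subsemigroups
  of `T` is minimal nonelementary.
With the definitions exactly as posed (namespace `Lit`: only identical inclusions `u ∈̂ V`, where `u`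
is a word):
5. the minimal nonelementary inclusive varieties which contain arbitrarily large finite groups are
  exactly the classes of cyclic `p`-groups and of finite elementary abelian `p`-groups;
6. each of the others has only finite groups of bounded order and satisfies an identity
  `x ^ (s + 1) = x ^ (s + m + 1)` with `m ≥ 1` (`pw x s = x ^ (s + 1)`).
With inclusions `0 ∈̂ V` allowed besides the inclusions `u ∈̂ V` (namespace `Zer`):
7. the statement of part 5 holds. -/
theorem result :
    (∀ M : Set Semigrp.{u},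
      (IsMinimalNonelementary M ∧ ∀ n : ℕ, ∃ S ∈ M, Finite S ∧ n ≤ Nat.card S) ↔ Listed M) ∧
    (∀ M : Set Semigrp.{u},
      (IsMinimalNonelementary M ∧ ∀ S ∈ M, LocallyFin S) ↔ Listed M) ∧
    (∀ M : Set Semigrp.{u}, IsMinimalNonelementary M → ¬ Listed M →
      ∃ b : ℕ, (∀ S ∈ M, Finite S → Nat.card S ≤ b) ∧
        ∃ (G : Type u) (_ : Group G), Infinite G ∧ Group.FG G ∧ IsSimpleGroup G ∧
          Semigrp.of G ∈ M) ∧
    (∀ (T : Type u) [Group T] [Infinite T] [IsSimpleGroup T] (b : ℕ),
      (∀ H : Subgroup T, H ≠ ⊤ → Finite H ∧ Nat.card H ≤ b) →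
        IsMinimalNonelementary {S : Semigrp.{u} | Nonempty S ∧ Divides S T}) ∧
    (∀ M : Set Semigrp.{u},
      (Lit.IsMinimalNonelementary M ∧ ∀ n : ℕ, ∃ S ∈ M, Finite S ∧ n ≤ Nat.card S ∧ IsGrp S) ↔
        ∃ p : ℕ, p.Prime ∧ (M = CycP p ∨ M = ElemP p)) ∧
    (∀ M : Set Semigrp.{u}, Lit.IsMinimalNonelementary M →
      (¬ ∃ p : ℕ, p.Prime ∧ (M = CycP p ∨ M = ElemP p)) →
        (∃ b : ℕ, ∀ S ∈ M, Finite S → IsGrp S → Nat.card S ≤ b) ∧
          ∃ s m : ℕ, 1 ≤ m ∧ ∀ S ∈ M, ∀ x : S, pw x s = pw x (s + m)) ∧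
    (∀ M : Set Semigrp.{u},
      (Zer.IsMinimalNonelementary M ∧ ∀ n : ℕ, ∃ S ∈ M, Finite S ∧ n ≤ Nat.card S ∧ IsGrp S) ↔
        ∃ p : ℕ, p.Prime ∧ (M = CycP p ∨ M = ElemP p)) := by
  refine ⟨fun M => ⟨fun h => ?_, fun h => ⟨listed_minimal h, listed_large h⟩⟩,
    fun M => ⟨fun h => ?_, fun h => ⟨listed_minimal h, fun S hS s _ => ?_⟩⟩,
    fun M hM h => rest hM h, ?_, fun M => Lit.lit_large,
    fun M hM h => (Lit.lit_rest hM).resolve_left h, fun M => Zer.zer_large⟩
  · by_contra hcon
    obtain ⟨b, hb, _⟩ := rest h.1 hcon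
    obtain ⟨S, hS, hf, hc⟩ := h.2 (b + 1)
    have := hb S hS hf
    omega
  · by_contra hcon
    obtain ⟨b, hb, G, hG, hinf, hfg, _, hGM⟩ := rest h.1 hcon
    exact hinf.not_finite (fg_finite hfg (h.2 _ hGM))
  · have h1 := listed_finite h S hS
    exact Set.toFinite _
  · intro T _ _ _ b hb
    exact monster_minimal T b hb fun N hN => IsSimpleGroup.eq_bot_or_eq_top_of_normal N hN

end Pool.Agent.Results.MP_f75ac6_al.MinimalNonelementary
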