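import Mathlib
import Pool.Agent.Helper93.IV1

namespace Pool.Agent.Results.MP_f75ac6_al.NoMaximal

open Pool.Agent.Helper93.IV

universe u

/-- An identical inclusion `u ∈̂ V`: a word `u ∈ X⁺` and a nonempty set of words `V ⊆ X⁺`, where
`X = ℕ` and `X⁺ = FreeSemigroup ℕ`. -/
structure IdInclusion where
  /-- the left-hand word `u` -/
  word : FreeSemigroup ℕ
  /-- the set `V` of words on the right -/
  words : Set (FreeSemigroup ℕ)
  nonempty : words.Nonempty

/-- `S` satisfies `u ∈̂ V`: every homomorphism `φ : X⁺ → S` has `φ u = φ v` for some `v ∈ V`. -/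
def Satisfies (S : Type u) [Semigroup S] (σ : IdInclusion) : Prop :=
  ∀ φ : FreeSemigroup ℕ →ₙ* S, ∃ v ∈ σ.words, φ σ.word = φ v

/-- The class of all (nonempty) semigroups satisfying every member of `Γ`. -/
def Models (Γ : Set IdInclusion) : Set Semigrp.{u} :=
  {S | Nonempty S ∧ ∀ σ ∈ Γ, Satisfies S σ}

/-- Inclusive varieties: the classes defined by some set of identical inclusions. -/
def IsInclusiveVariety (M : Set Semigrp.{u}) : Prop :=
  ∃ Γ : Set IdInclusion, M = Models Γ

/-- Elementary: defined by some set of identical inclusions `u ∈̂ V` with `V` finite. -/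
def IsElementary (M : Set Semigrp.{u}) : Prop :=
  ∃ Γ : Set IdInclusion, (∀ σ ∈ Γ, σ.words.Finite) ∧ M = Models Γ

/-- `M` is a maximal nonelementary inclusive variety of semigroups. -/
def IsMaximalNonelementary (M : Set Semigrp.{u}) : Prop :=
  IsInclusiveVariety M ∧ ¬ IsElementary M ∧
    ∀ N : Set Semigrp.{u}, IsInclusiveVariety N → M ⊂ N → IsElementary N

/-- the inclusion `zu ∈̂ X⁺ ∖ {zu}` -/
def weak (w : FreeSemigroup ℕ) : IdInclusion where
  word := FreeSemigroup.of 0 * w
  words := {FreeSemigroup.of 0 * w}ᶜ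
  nonempty := ⟨w, by
    intro h
    have := congrArg FreeSemigroup.length (Set.mem_singleton_iff.1 h)
    rw [FreeSemigroup.length_mul, FreeSemigroup.length_of] at this
    omega⟩

lemma satisfies_ulift {S : Type} [Semigroup S] {σ : IdInclusion} :
    Satisfies (ULift.{u} S) σ ↔ Satisfies S σ := by
  constructor
  · intro h φ
    obtain ⟨v, hv, he⟩ := h ((MulEquiv.ulift (α := S)).symm.toMulHom.comp φ)
    refine ⟨v, hv, ?_⟩
    have := congrArg (MulEquiv.ulift (α := S)) he
    simpa using! this
  · intro h φ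
    obtain ⟨v, hv, he⟩ := h ((MulEquiv.ulift (α := S)).toMulHom.comp φ)
    refine ⟨v, hv, ?_⟩
    have : MulEquiv.ulift (φ σ.word) = MulEquiv.ulift (φ v) := he
    exact (MulEquiv.ulift (α := S)).injective this

/-- finite groups satisfy every inclusion `weak w`. -/
lemma group_satisfies_weak (G : Type) [Group G] [Finite G] (w : FreeSemigroup ℕ) :
    Satisfies G (weak w) := by
  intro φ
  refine ⟨rep (FreeSemigroup.of 0) (Nat.card G) * w, ?_, ?_⟩
  · intro h
    have := congrArg FreeSemigroup.length (Set.mem_singleton_iff.1 h)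
    rw [FreeSemigroup.length_mul, FreeSemigroup.length_mul, rep_length,
      FreeSemigroup.length_of] at this
    have h2 : 0 < Nat.card G := Nat.card_pos
    omega
  · show φ (FreeSemigroup.of 0 * w) = _
    rw [map_mul, map_mul, rep_map, pow_succ, pow_card_eq_one', one_mul]

/-- the nilpotent semigroups satisfy `weak w` if `n ≤ |w|`. -/
lemma nil_satisfies_weak (n : ℕ) (w : FreeSemigroup ℕ) (h : n ≤ w.length) :
    Satisfies (nilCon n).Quotient (weak w) := by
  intro φ
  refine ⟨(FreeSemigroup.of 0 * w) * (FreeSemigroup.of 0 * w), ?_, ?_⟩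
  · intro h
    have := congrArg FreeSemigroup.length (Set.mem_singleton_iff.1 h)
    rw [FreeSemigroup.length_mul, FreeSemigroup.length_mul, FreeSemigroup.length_of] at this
    omega
  · apply nil_image_eq
    · show n < (FreeSemigroup.of 0 * w).length
      rw [FreeSemigroup.length_mul, FreeSemigroup.length_of]; omega
    · rw [FreeSemigroup.length_mul, FreeSemigroup.length_mul, FreeSemigroup.length_of]; omega

/-- ... and do not satisfy nontrivial inclusions with a left hand side of length at most `n`. -/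
lemma nil_not_satisfies (n : ℕ) (σ : IdInclusion) (h : σ.word.length ≤ n) (h2 : σ.word ∉ σ.words) :
    ¬ Satisfies (nilCon n).Quotient σ := by
  intro hs
  obtain ⟨v, hv, he⟩ := hs
    ⟨fun w => (w : (nilCon n).Quotient), fun _ _ => rfl⟩
  have he' : ((σ.word : (nilCon n).Quotient) = (v : (nilCon n).Quotient)) := he
  rw [nilCon_iff] at he'
  rcases he' with he' | he'
  · rw [he'] at h2; exact h2 hv
  · omega

lemma weak_nonelementary (w : FreeSemigroup ℕ) :
    ¬ IsElementary (Models.{u} {weak w}) := by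
  rintro ⟨Γ, hfin, hM⟩
  -- every member of Γ is trivial
  have htriv : ∀ σ ∈ Γ, σ.word ∈ σ.words := by
    intro σ hσ
    obtain ⟨k, n, hinj⟩ := exists_separating (insert σ.word σ.words) ((hfin σ hσ).insert _)
    have hG : Semigrp.of (ULift.{u} (Equiv.Perm (Lst k n))) ∈ Models.{u} {weak w} := by
      refine ⟨⟨(1 : ULift.{u} (Equiv.Perm (Lst k n)))⟩, ?_⟩
      intro τ hτ
      rw [Set.mem_singleton_iff] at hτ
      subst hτ
      exact satisfies_ulift.2 (group_satisfies_weak _ w)
    rw [hM] at hG
    have hs : Satisfies (Equiv.Perm (Lst k n)) σ := satisfies_ulift.1 (hG.2 σ hσ)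
    obtain ⟨v, hv, he⟩ := hs (FreeSemigroup.lift (letterPerm k n))
    have := hinj (Set.mem_insert _ _) (Set.mem_insert_of_mem _ hv) he
    rw [this]; exact hv
  have hT : Semigrp.of (ULift.{u} (nilCon (w.length + 1)).Quotient) ∈ Models.{u} Γ := by
    refine ⟨⟨ULift.up ((w : (nilCon (w.length + 1)).Quotient))⟩, ?_⟩
    intro σ hσ φ
    exact ⟨σ.word, htriv σ hσ, rfl⟩
  rw [← hM] at hT
  have hs : Satisfies (nilCon (w.length + 1)).Quotient (weak w) :=
    satisfies_ulift.1 (hT.2 _ (Set.mem_singleton _))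
  refine nil_not_satisfies _ (weak w) ?_ ?_ hs
  · show (FreeSemigroup.of 0 * w).length ≤ _
    rw [FreeSemigroup.length_mul, FreeSemigroup.length_of]; omega
  · intro h
    exact h rfl

/-- There is no maximal nonelementary inclusive variety of semigroups. -/
theorem result : {M : Set Semigrp.{u} | IsMaximalNonelementary M} = ∅ := by
  rw [Set.eq_empty_iff_forall_notMem]
  rintro M ⟨⟨Γ, rfl⟩, hne, hmax⟩
  obtain ⟨σ, hσ, hnt⟩ : ∃ σ ∈ Γ, σ.word ∉ σ.words := by
    by_contra hcon
    push Not at hcon
    apply hne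
    refine ⟨∅, by simp, ?_⟩
    ext S
    constructor
    · rintro ⟨h1, -⟩
      exact ⟨h1, by simp⟩
    · rintro ⟨h1, -⟩
      exact ⟨h1, fun σ hσ φ => ⟨σ.word, hcon σ hσ, rfl⟩⟩
  refine weak_nonelementary σ.word (hmax (Models {weak σ.word}) ⟨_, rfl⟩ ?_)
  rw [Set.ssubset_iff_exists]
  constructor
  · rintro S ⟨h1, h2⟩
    refine ⟨h1, ?_⟩
    intro τ hτ
    rw [Set.mem_singleton_iff] at hτ
    subst hτ
    intro φ
    obtain ⟨v, hv, he⟩ := h2 σ hσ φ
    refine ⟨FreeSemigroup.of 0 * v, ?_, ?_⟩
    · intro h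
      have h3 : FreeSemigroup.of 0 * v = FreeSemigroup.of 0 * σ.word := h
      have h4 : v = σ.word := by
        have h5 := congrArg FreeSemigroup.tail h3
        simp only [FreeSemigroup.tail_mul, FreeSemigroup.of_tail, List.nil_append,
          List.cons.injEq] at h5
        exact FreeSemigroup.ext h5.1 h5.2
      rw [h4] at hv
      exact hnt hv
    · show φ (FreeSemigroup.of 0 * σ.word) = _
      rw [map_mul, map_mul, he]
  · refine ⟨Semigrp.of (ULift.{u} (nilCon σ.word.length).Quotient), ⟨⟨ULift.up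
      ((σ.word : (nilCon σ.word.length).Quotient))⟩, ?_⟩, ?_⟩
    · intro τ hτ
      rw [Set.mem_singleton_iff] at hτ
      subst hτ
      exact satisfies_ulift.2 (nil_satisfies_weak _ _ le_rfl)
    · intro h
      exact nil_not_satisfies _ σ le_rfl hnt (satisfies_ulift.1 (h.2 σ hσ))

end Pool.Agent.Results.MP_f75ac6_al.NoMaximal
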